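import Mathlib
import Pool.Agent.Helper2.NewtonCover
import Pool.Agent.Helper2.NewtonSmooth
import Pool.Agent.Helper2.NewtonSmoothD

/-!
# The Newton covering number: the plane, and smooth convex bodies in every dimension
-/

namespace Pool.Agent.Results.MP_54d165_co.SmoothNewton

open Set Metric
open Pool.Agent.Helper2.NewtonCover
open Pool.Agent.Helper2.NewtonSmooth
open Pool.Agent.Helper2.NewtonSmoothD

theorem result :
    -- the plane: `M(2) = 3`
    IsGreatest {m : ℕ | ∃ C : Set (E 2), IsBody C ∧ newton C = m} 3 ∧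
    (∀ C : Set (E 2), IsBody C → newton C = 2 ∨ newton C = 3) ∧
    -- bodies attaining the maximum in the plane
    (∀ C : Set (E 2), IsBody C → ConstantWidth C → newton C = 3) ∧
    (∀ C : Set (E 2), IsBody C → Smooth C → (newton C = 3 ↔ ConstantWidth C)) ∧
    -- every dimension, smooth bodies
    (∀ d : ℕ, 1 ≤ d →
      IsGreatest {m : ℕ | ∃ C : Set (E d), IsBody C ∧ Smooth C ∧ newton C = m} (d + 1)) ∧
    (∀ d : ℕ, 1 ≤ d → ∀ C : Set (E d), IsBody C → Smooth C → newton C = d + 1 →
      ConstantWidth C) ∧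
    (∀ d : ℕ, 1 ≤ d → newton (closedBall (0 : E d) 1) = d + 1) ∧
    -- every dimension, every body: the least number of copies, and the Borsuk bound
    (∀ (d : ℕ) (C : Set (E d)), IsBody C → IsLeast {n : ℕ | Covers C n} (newton C)) ∧
    (∀ d : ℕ, 1 ≤ d → ∀ C : Set (E d), IsBody C →
      ∃ A : Fin (newton C) → Set (E d), C = ⋃ i, A i ∧ ∀ i, diam (A i) < diam C) := by
  have hrank : ∀ d : ℕ, 1 ≤ d → Nontrivial (E d) := by
    intro d hd
    rw [← Module.finrank_pos_iff (R := ℝ), finrank_euclideanSpace_fin]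
    omega
  have hup : ∀ C : Set (E 2), IsBody C → newton C ≤ 3 := fun C hC =>
    Nat.sInf_le (main_plane hC)
  have hlow : ∀ C : Set (E 2), IsBody C → 2 ≤ newton C := by
    intro C hC
    haveI := hrank 2 (by norm_num)
    by_contra hcon
    push Not at hcon
    exact not_covers_one hC.2.1 hC.2.2 (by omega : newton C ≤ 1) (covers_newton hC)
  have hdisc : newton (closedBall (0 : E 2) 1) = 3 :=
    le_antisymm (hup _ isBody_ball) (ball_lower (by norm_num))
  have hcw : ∀ C : Set (E 2), IsBody C → ConstantWidth C → newton C = 3 := by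
    intro C hC hw
    have h1 := hup C hC
    have h2 := hlow C hC
    have h3 : newton C ≠ 2 := by
      intro h
      have h4 := covers_newton hC
      rw [h] at h4
      refine not_covers_two hC.2.1 hC.2.2 ?_ hw h4
      rw [← Module.finrank_eq_rank, finrank_euclideanSpace_fin]
      norm_num
    omega
  have hsm : ∀ (d : ℕ) (C : Set (E d)), IsBody C → Smooth C → newton C ≤ d + 1 := by
    intro d C hC hs
    have := smooth_upper hC.1 hC.2.1 hC.2.2 hs
    rw [finrank_euclideanSpace_fin] at this
    exact Nat.sInf_le this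
  have hnc : ∀ (d : ℕ) (C : Set (E d)), IsBody C → Smooth C → ¬ ConstantWidth C →
      newton C ≤ d := by
    intro d C hC hs hw
    have := nonconst_upper hC.1 hC.2.1 hC.2.2 hs hw
    rw [finrank_euclideanSpace_fin] at this
    exact Nat.sInf_le this
  have hball : ∀ d : ℕ, 1 ≤ d → newton (closedBall (0 : E d) 1) = d + 1 := fun d hd =>
    le_antisymm (hsm d _ isBody_ball smooth_closedBall) (ball_lower hd)
  have hcwD : ∀ d : ℕ, 1 ≤ d → ∀ C : Set (E d), IsBody C → Smooth C → newton C = d + 1 →
      ConstantWidth C := by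
    intro d _ C hC hs hn
    by_contra hw
    have := hnc d C hC hs hw
    omega
  refine ⟨⟨⟨_, isBody_ball, hdisc⟩, ?_⟩, ?_, hcw, ?_, ?_, hcwD, hball, ?_, ?_⟩
  · rintro m ⟨C, hC, rfl⟩
    exact hup C hC
  · intro C hC
    have h1 := hup C hC
    have h2 := hlow C hC
    omega
  · intro C hC hs
    exact ⟨fun h => hcwD 2 (by norm_num) C hC hs h, hcw C hC⟩
  · intro d hd
    refine ⟨⟨_, isBody_ball, smooth_closedBall, hball d hd⟩, ?_⟩
    rintro m ⟨C, hC, hs, rfl⟩
    exact hsm d C hC hs
  · exact fun d C hC => ⟨covers_newton hC, fun n hn => Nat.sInf_le hn⟩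
  · intro d hd C hC
    haveI := hrank d hd
    obtain ⟨k, A, hk0, hk1, -, hcov, hdist⟩ := borsuk hC.2.1 (covers_newton hC)
    have hD := diam_pos_of_interior hC.2.1 hC.2.2
    refine ⟨fun i => A i ∩ C, ?_, fun i => ?_⟩
    · rw [← iUnion_inter]
      exact (inter_eq_right.2 hcov).symm
    · have h1 : diam (A i ∩ C) ≤ k * diam C :=
        diam_le_of_forall_dist_le (by positivity) (fun x hx y hy => hdist i x hx.1 y hy.1)
      nlinarith

end Pool.Agent.Results.MP_54d165_co.SmoothNewton
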